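import Pool.Agent.Run7.h991.MU.Iface

/-! # Piece FINL of the project MU (helper67) -/

set_option autoImplicit false

open MeasureTheory Filter Topology

namespace H991.MU

namespace FINLaux

/-- the map to `L²` -/
noncomputable def T : C(Q, ℂ) →L[ℂ] Lp ℂ 2 (volume : Measure Q) :=
  ContinuousMap.toLp (E := ℂ) 2 volume ℂ

theorem inner_T (h : Lp ℂ 2 (volume : Measure Q)) (g : C(Q, ℂ)) :
    inner ℂ h (T g) = ∫ a, inner ℂ (h a) (g a) := by
  rw [L2.inner_def]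
  refine integral_congr_ae ?_
  filter_upwards [ContinuousMap.coeFn_toLp (p := 2) (𝕜 := ℂ) (volume : Measure Q) g] with a ha
  show inner ℂ (h a) ((T g) a) = _
  unfold T
  rw [ha]

/-- the cut off functions -/
noncomputable def phi (k : ℕ) : C(Q, ℂ) :=
  ⟨fun q => ((min 1 ((k : ℝ) * (q.1 : ℝ)) * min 1 ((k : ℝ) * (q.2 : ℝ)) : ℝ) : ℂ), by fun_prop⟩

theorem phi_le (k : ℕ) (q : Q) : ‖phi k q‖ ≤ 1 := by
  show ‖((min 1 ((k : ℝ) * (q.1 : ℝ)) * min 1 ((k : ℝ) * (q.2 : ℝ)) : ℝ) : ℂ)‖ ≤ 1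
  have h1 : 0 ≤ min 1 ((k : ℝ) * (q.1 : ℝ)) :=
    le_min zero_le_one (mul_nonneg (Nat.cast_nonneg k) q.1.2.1)
  have h2 : 0 ≤ min 1 ((k : ℝ) * (q.2 : ℝ)) :=
    le_min zero_le_one (mul_nonneg (Nat.cast_nonneg k) q.2.2.1)
  rw [Complex.norm_real, Real.norm_eq_abs, abs_of_nonneg (mul_nonneg h1 h2)]
  calc min 1 ((k : ℝ) * (q.1 : ℝ)) * min 1 ((k : ℝ) * (q.2 : ℝ)) ≤ 1 * 1 :=
        mul_le_mul (min_le_left _ _) (min_le_left _ _) h2 zero_le_one
    _ = 1 := one_mul 1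

theorem mem_C0 (k : ℕ) (g : C(Q, ℂ)) : g * phi k ∈ C0 := by
  intro q hq
  show g q * ((min 1 ((k : ℝ) * (q.1 : ℝ)) * min 1 ((k : ℝ) * (q.2 : ℝ)) : ℝ) : ℂ) = 0
  rcases hq with h | h
  · rw [h]; simp
  · rw [h]; simp

theorem phi_tendsto {q : Q} (h1 : q.1 ≠ 0) (h2 : q.2 ≠ 0) :
    Tendsto (fun k => phi k q) atTop (𝓝 1) := by
  have p1 : 0 < (q.1 : ℝ) := lt_of_le_of_ne q.1.2.1 (fun e => h1 (Subtype.ext e.symm))
  have p2 : 0 < (q.2 : ℝ) := lt_of_le_of_ne q.2.2.1 (fun e => h2 (Subtype.ext e.symm))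
  have e1 : ∀ᶠ k : ℕ in atTop, 1 ≤ (k : ℝ) * (q.1 : ℝ) :=
    (tendsto_natCast_atTop_atTop.atTop_mul_const p1).eventually_ge_atTop 1
  have e2 : ∀ᶠ k : ℕ in atTop, 1 ≤ (k : ℝ) * (q.2 : ℝ) :=
    (tendsto_natCast_atTop_atTop.atTop_mul_const p2).eventually_ge_atTop 1
  refine tendsto_const_nhds.congr' ?_
  filter_upwards [e1, e2] with k h3 h4
  show (1 : ℂ) = ((min 1 ((k : ℝ) * (q.1 : ℝ)) * min 1 ((k : ℝ) * (q.2 : ℝ)) : ℝ) : ℂ)
  rw [min_eq_left h3, min_eq_left h4]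
  simp

theorem ae_ne : ∀ᵐ q : Q, q.1 ≠ 0 ∧ q.2 ≠ 0 := by
  have h0 : ∀ᵐ x : ↥unitInterval, x ≠ 0 := by
    rw [ae_iff]
    have : {a : ↥unitInterval | ¬ a ≠ 0} = {0} := by ext a; simp
    rw [this]
    exact measure_singleton _
  have h1 : ∀ᵐ q : Q, q.1 ≠ 0 := Measure.quasiMeasurePreserving_fst.ae h0
  have h2 : ∀ᵐ q : Q, q.2 ≠ 0 := Measure.quasiMeasurePreserving_snd.ae h0
  filter_upwards [h1, h2] with q h3 h4
  exact ⟨h3, h4⟩

end FINLaux

open FINLaux in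
theorem t_FINL (hFINC : S_FINC) : S_FINL := by
  intro Ω ε δ he he1 hd hΩ hD
  rw [Submodule.topologicalClosure_eq_top_iff, Submodule.eq_bot_iff]
  intro h hh
  -- generators
  have hgen : ∀ p ∈ Ω, inner ℂ h (T (mon p.1 p.2)) = 0 := by
    intro p hp
    have h1 : T (mon p.1 p.2) ∈ Submodule.span ℂ {g : Lp ℂ 2 (volume : Measure Q) | ∃ p ∈ Ω,
        g = ContinuousMap.toLp (E := ℂ) 2 volume ℂ (mon p.1 p.2)} :=
      Submodule.subset_span ⟨p, hp, rfl⟩
    exact Submodule.inner_left_of_mem_orthogonal h1 hh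
  let Λ : C(Q, ℂ) →L[ℂ] ℂ := (innerSL ℂ h).comp T
  have hΛ : ∀ g, Λ g = inner ℂ h (T g) := fun g => rfl
  have hker : (Submodule.span ℂ {g : C(Q, ℂ) | ∃ p ∈ Ω, g = mon p.1 p.2}).topologicalClosure ≤
      LinearMap.ker (Λ : C(Q, ℂ) →ₗ[ℂ] ℂ) := by
    refine Submodule.topologicalClosure_minimal _ ?_ ?_
    · rw [Submodule.span_le]
      rintro g ⟨p, hp, rfl⟩
      exact hgen p hp
    · exact isClosed_singleton.preimage Λ.continuous
  have hC0 : ∀ f ∈ C0, inner ℂ h (T f) = 0 := fun f hf =>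
    hker (hFINC Ω ε δ he he1 hd hΩ hD f hf)
  -- all continuous functions
  have hint : Integrable (fun a => ‖h a‖) (volume : Measure Q) :=
    ((Lp.memLp h).integrable (by norm_num)).norm
  have hcont : ∀ g : C(Q, ℂ), inner ℂ h (T g) = 0 := by
    intro g
    have hlim : Tendsto (fun k : ℕ => ∫ a, inner ℂ (h a) ((g * phi k) a)) atTop
        (𝓝 (∫ a, inner ℂ (h a) (g a))) := by
      refine tendsto_integral_of_dominated_convergence (fun a => ‖h a‖ * ‖g‖) ?_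
        (hint.mul_const _) ?_ ?_
      · intro k
        exact (Lp.aestronglyMeasurable h).inner
          (g * phi k).continuous.aestronglyMeasurable
      · intro k
        refine Eventually.of_forall fun a => ?_
        refine (norm_inner_le_norm _ _).trans ?_
        refine mul_le_mul_of_nonneg_left ?_ (norm_nonneg _)
        show ‖g a * phi k a‖ ≤ ‖g‖
        rw [norm_mul]
        calc ‖g a‖ * ‖phi k a‖ ≤ ‖g‖ * 1 :=
              mul_le_mul (g.norm_coe_le_norm a) (phi_le k a) (norm_nonneg _) (norm_nonneg _)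
          _ = ‖g‖ := mul_one _
      · filter_upwards [ae_ne] with a ha
        have h1 : Tendsto (fun k => (g * phi k) a) atTop (𝓝 (g a * 1)) :=
          (phi_tendsto ha.1 ha.2).const_mul (g a)
        rw [mul_one] at h1
        exact Tendsto.inner tendsto_const_nhds h1
    have hz : ∀ k : ℕ, ∫ a, inner ℂ (h a) ((g * phi k) a) = 0 := fun k => by
      rw [← inner_T, hC0 _ (mem_C0 k g)]
    simp only [hz] at hlim
    rw [inner_T]
    exact tendsto_nhds_unique hlim tendsto_const_nhds |>.symm ▸ rfl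
  have hdense : DenseRange (T : C(Q, ℂ) → Lp ℂ 2 (volume : Measure Q)) :=
    ContinuousMap.toLp_denseRange ℂ volume ℂ (by norm_num)
  have hall : ∀ x : Lp ℂ 2 (volume : Measure Q), inner ℂ h x = 0 := by
    intro x
    refine hdense.induction_on x ?_ hcont
    exact isClosed_eq (continuous_const.inner continuous_id) continuous_const
  exact inner_self_eq_zero.1 (hall h)

end H991.MU
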